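import Pool.Agent.Q262.Circ.I1129
import Pool.Agent.Q262.Circ.I2289
import Pool.Agent.Q262.Circ.I3853

/-!
`g(19) = 1129`, `g(27) = 2289` and `g(35) = 3853` are non-MC.
-/

set_option autoImplicit false
set_option maxRecDepth 100000

namespace Pool.Agent.Results.MP_b0ed8d_nt.MoreNonMC

open Q262.Circ

/-- `g(k)`, the number of lattice points `(a, b)` with `a² + b² ≤ k²`. -/
noncomputable def g (k : ℕ) : ℕ := {p : ℤ × ℤ | p.1 ^ 2 + p.2 ^ 2 ≤ (k : ℤ) ^ 2}.ncard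

theorem g_eq (k : ℕ) : g k =
    boxCnt 1 (1 * k + 0) (1 * k + 0) (k ^ 2 + 1) (2 * k + 1) (2 * k + 1) 0 := by
  have h : {p : ℤ × ℤ | p.1 ^ 2 + p.2 ^ 2 ≤ (k : ℤ) ^ 2} = TS 1 0 0 (k ^ 2 + 1) := by
    ext p
    change p.1 ^ 2 + p.2 ^ 2 ≤ (k : ℤ) ^ 2 ↔
      (((1 : ℕ) : ℤ) * p.1 - ((0 : ℕ) : ℤ)) ^ 2 + (((1 : ℕ) : ℤ) * p.2 - ((0 : ℕ) : ℤ)) ^ 2 <
        ((k ^ 2 + 1 : ℕ) : ℤ)
    push_cast
    rw [one_mul, one_mul, sub_zero, sub_zero, Int.lt_add_one_iff]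
  have hk : k ^ 2 + 1 ≤ (1 * (k + 1) - 0) * (1 * (k + 1) - 0) := by
    rw [one_mul, Nat.sub_zero]; nlinarith
  rw [g, h, Set.ncard_def, TS_encard (M := k) (Nat.zero_le _) (Nat.zero_le _) hk hk, ENat.toNat_natCast]

theorem g19 : g 19 = 1129 := by rw [g_eq]; decide +kernel

theorem g27 : g 27 = 2289 := by rw [g_eq]; decide +kernel

theorem g35 : g 35 = 3853 := by rw [g_eq]; decide +kernel

/-- There are integers `k ≥ 1` different from `1` and `10` for which `g(k)` is non-MC: the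
numbers `g(19) = 1129`, `g(27) = 2289` and `g(35) = 3853` are non-MC. -/
theorem result : (∃ k : ℕ, 1 ≤ k ∧ k ≠ 1 ∧ k ≠ 10 ∧ ¬ MC (g k)) ∧
    (g 19 = 1129 ∧ ¬ MC (g 19)) ∧ (g 27 = 2289 ∧ ¬ MC (g 27)) ∧
    (g 35 = 3853 ∧ ¬ MC (g 35)) := by
  have h1 : ¬ MC (g 19) := by rw [g19]; exact I1129.nonMC_1129
  have h2 : ¬ MC (g 27) := by rw [g27]; exact I2289.nonMC_2289
  have h3 : ¬ MC (g 35) := by rw [g35]; exact I3853.nonMC_3853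
  exact ⟨⟨27, by norm_num, by norm_num, by norm_num, h2⟩, ⟨g19, h1⟩, ⟨g27, h2⟩, g35, h3⟩

end Pool.Agent.Results.MP_b0ed8d_nt.MoreNonMC
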